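import Pool.Agent.Helper13.VB.Cnt

/-!
# The number of the failing blocks compared with the order of `C_r ≀ A_n`
-/

set_option autoImplicit false

open scoped Classical

namespace Pool.Agent.Helper13.VB

open Pool.Agent.Helper18.BR

theorem card_reg' (r : ℕ) [NeZero r] (H : Type) [Group H] [Finite H] :
    Nat.card (Wr (Multiplicative (ZMod r)) H H) = r ^ Nat.card H * Nat.card H := by
  rw [Nat.card_congr (SemidirectProduct.equivProd (N := H → Multiplicative (ZMod r)) (G := H)),
    Nat.card_prod, Nat.card_fun, Nat.card_congr Multiplicative.toAdd, Nat.card_zmod]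

theorem log_bound' (r : ℕ) [NeZero r] (H : Type) [Group H] [Finite H] :
    Real.log (Nat.card (Wr (Multiplicative (ZMod r)) H H)) ≤ Nat.card H * (Real.log r + 1) := by
  have h1 : (0 : ℝ) < r := by exact_mod_cast NeZero.pos r
  have h2 : (0 : ℝ) < Nat.card H := by exact_mod_cast Nat.card_pos (α := H)
  rw [card_reg']
  push_cast
  rw [Real.log_mul (by positivity) h2.ne', Real.log_pow]
  have h3 := Real.log_le_sub_one_of_pos h2
  nlinarith

/-- the exponent -/
noncomputable def eps (r g : ℕ) : ℝ := Real.log 2 / (8 * g * (Real.log r + 1))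

theorem eps_pos {r g : ℕ} (hg : 0 < g) : 0 < eps r g := by
  have hgR : (0 : ℝ) < g := by exact_mod_cast hg
  have hl2 : 0 < Real.log 2 := Real.log_pos (by norm_num)
  have hlr : 0 ≤ Real.log r := Real.log_natCast_nonneg r
  unfold eps
  positivity

theorem too_many {r g n s : ℕ} [NeZero r] (hg0 : 0 < g) (hn5 : 5 ≤ n) (hng : 2 * g ≤ n)
    (hS2 : 2 ^ (n.factorial / (4 * g)) ≤ s) :
    ¬ ((s : ℝ) ≤ (Nat.card (Wr (Multiplicative (ZMod r)) (alternatingGroup (Fin n))
      (alternatingGroup (Fin n))) : ℝ) ^ eps r g) := by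
  intro h3
  unfold eps at h3
  have hgR : (0 : ℝ) < g := by exact_mod_cast hg0
  have hl2 : 0 < Real.log 2 := Real.log_pos (by norm_num)
  have hlr : 0 ≤ Real.log r := Real.log_natCast_nonneg r
  have h4 := alt_card n hn5
  set a := Nat.card (alternatingGroup (Fin n)) with ha
  have h5 : 4 * g ≤ a := by
    obtain ⟨j, rfl⟩ : ∃ j, n = j + 1 := ⟨n - 1, by omega⟩
    have h6 : (j + 1).factorial = (j + 1) * j.factorial := Nat.factorial_succ _
    have h7 : Nat.factorial 4 ≤ j.factorial := Nat.factorial_le (by omega)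
    have h8 : Nat.factorial 4 = 24 := rfl
    have h9 : (j + 1) * 24 ≤ (j + 1) * j.factorial := Nat.mul_le_mul_left _ (by omega)
    omega
  have h6 : (a : ℝ) / (4 * g) ≤ ((n.factorial / (4 * g) : ℕ) : ℝ) := by
    have h7 : n.factorial / (4 * g) = a / (2 * g) := by
      rw [← h4, show 4 * g = 2 * (2 * g) by ring]
      exact Nat.mul_div_mul_left _ _ (by norm_num)
    rw [h7]
    have h8 : a < 2 * g * (a / (2 * g) + 1) := Nat.lt_mul_div_succ a (by omega)
    have h9 : 1 ≤ a / (2 * g) := by
      rw [Nat.le_div_iff_mul_le (by omega)]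
      omega
    rw [div_le_iff₀ (by positivity)]
    have h10 : a ≤ a / (2 * g) * (4 * g) := by nlinarith
    exact_mod_cast h10
  have haR : (0 : ℝ) < a := by
    have : 0 < a := by omega
    exact_mod_cast this
  have h7 : (2 : ℝ) ^ (n.factorial / (4 * g)) ≤ (Nat.card (Wr (Multiplicative (ZMod r))
      (alternatingGroup (Fin n)) (alternatingGroup (Fin n))) : ℝ) ^
      (Real.log 2 / (8 * g * (Real.log r + 1))) := by
    refine le_trans ?_ h3
    exact_mod_cast hS2
  have h8 := Real.log_le_log (by positivity) h7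
  have hc : (0 : ℝ) < Nat.card (Wr (Multiplicative (ZMod r)) (alternatingGroup (Fin n))
      (alternatingGroup (Fin n))) := by
    exact_mod_cast Nat.card_pos (α := Wr (Multiplicative (ZMod r)) (alternatingGroup (Fin n))
      (alternatingGroup (Fin n)))
  rw [Real.log_pow, Real.log_rpow hc] at h8
  have h9 := log_bound' r (alternatingGroup (Fin n))
  rw [← ha] at h9
  have h10 : Real.log 2 / (8 * g * (Real.log r + 1)) *
      Real.log (Nat.card (Wr (Multiplicative (ZMod r)) (alternatingGroup (Fin n))
        (alternatingGroup (Fin n)))) ≤ a * Real.log 2 / (8 * g) := by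
    calc _ ≤ Real.log 2 / (8 * g * (Real.log r + 1)) * (a * (Real.log r + 1)) :=
          mul_le_mul_of_nonneg_left h9 (by positivity)
      _ = a * Real.log 2 / (8 * g) := by
          field_simp
  have h11 : a / (4 * g) * Real.log 2 ≤ a * Real.log 2 / (8 * g) :=
    (mul_le_mul_of_nonneg_right h6 hl2.le).trans (h8.trans h10)
  have h12 : (a : ℝ) * Real.log 2 / (8 * g) < a / (4 * g) * Real.log 2 := by
    rw [div_mul_eq_mul_div, div_lt_div_iff₀ (by positivity) (by positivity)]
    have h13 : 0 < (a : ℝ) * Real.log 2 * g := by positivity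
    nlinarith
  exact absurd h11 (not_le.2 h12)

end Pool.Agent.Helper13.VB
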