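import Pool.Agent.Helper13.VB.Tra

/-!
# Counting subsets of a group by their stabilizers
-/

set_option autoImplicit false
set_option linter.unusedSectionVars false

open scoped Classical

noncomputable section

namespace Pool.Agent.Helper13.VB

section stb

variable {H : Type} [Group H] [Finite H]

/-- the subsets of `H` which are unions of cosets `K w` -/
def Stb (K : Subgroup H) : Set (Set H) := {Δ | ∀ g ∈ K, ∀ w, g * w ∈ Δ ↔ w ∈ Δ}

/-- unions of cosets are sets of cosets -/
def stbEquiv (K : Subgroup H) : Stb K ≃ Set (Quotient (QuotientGroup.rightRel K)) where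
  toFun Δ := {c | ∃ w ∈ Δ.1, (Quotient.mk _ w : Quotient (QuotientGroup.rightRel K)) = c}
  invFun A := ⟨{w | (Quotient.mk _ w : Quotient (QuotientGroup.rightRel K)) ∈ A}, by
    intro g hg w
    have h1 : (Quotient.mk _ (g * w) : Quotient (QuotientGroup.rightRel K)) = Quotient.mk _ w := by
      apply Quotient.sound
      change (QuotientGroup.rightRel K) (g * w) w
      rw [QuotientGroup.rightRel_apply]
      simpa using K.inv_mem hg
    change Quotient.mk _ (g * w) ∈ A ↔ Quotient.mk _ w ∈ A
    rw [h1]⟩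
  left_inv Δ := by
    apply Subtype.ext
    ext w
    constructor
    · rintro ⟨v, hv, h⟩
      have h1 : (QuotientGroup.rightRel K) v w := Quotient.exact h
      rw [QuotientGroup.rightRel_apply] at h1
      have h2 := (Δ.2 _ h1 v).2 hv
      simpa using h2
    · intro h
      exact ⟨w, h, rfl⟩
  right_inv A := by
    ext c
    constructor
    · rintro ⟨w, hw, rfl⟩
      exact hw
    · intro h
      obtain ⟨w, rfl⟩ := Quotient.exists_rep c
      exact ⟨w, h, rfl⟩

theorem card_stb (K : Subgroup H) : Nat.card (Stb K) = 2 ^ K.index := by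
  have : Fintype H := Fintype.ofFinite H
  have h0 : Finite (Quotient (QuotientGroup.rightRel K)) := Quotient.finite _
  have : Fintype (Quotient (QuotientGroup.rightRel K)) := Fintype.ofFinite _
  rw [Nat.card_congr (stbEquiv K), Nat.card_eq_fintype_card, Fintype.card_set]
  congr 1
  rw [Subgroup.index, ← Nat.card_eq_fintype_card]
  exact Nat.card_congr (QuotientGroup.quotientRightRelEquivQuotientLeftRel K)

/-- the nonempty subsets with stabilizer `K` -/
def Gd (K : Subgroup H) : Set (Set H) :=
  {Δ | (∀ h : H, (∀ w, h • w ∈ Δ ↔ w ∈ Δ) ↔ h ∈ K) ∧ Δ.Nonempty}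

/-- a subset which is stable under `K` and under an element `h` is stable under the group which they
generate -/
theorem stb_sup {K : Subgroup H} {Δ : Set H} (h1 : Δ ∈ Stb K) {h : H}
    (h2 : ∀ w, h * w ∈ Δ ↔ w ∈ Δ) : Δ ∈ Stb (K ⊔ Subgroup.zpowers h) := by
  let L : Subgroup H :=
    { carrier := {g | ∀ w, g * w ∈ Δ ↔ w ∈ Δ}
      one_mem' := fun w => by rw [one_mul]
      mul_mem' := by
        intro a b ha hb w
        rw [mul_assoc]
        exact (ha _).trans (hb w)
      inv_mem' := by
        intro a ha w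
        have h3 := ha (a⁻¹ * w)
        rw [mul_inv_cancel_left] at h3
        exact h3.symm }
  have h3 : K ⊔ Subgroup.zpowers h ≤ L := by
    rw [sup_le_iff]
    refine ⟨fun g hg w => h1 g hg w, ?_⟩
    rw [Subgroup.zpowers_le]
    exact h2
  exact fun g hg w => h3 hg w

theorem two_mul_index {K : Subgroup H} {h : H} (hh : h ∉ K) :
    2 * (K ⊔ Subgroup.zpowers h).index ≤ K.index := by
  have h1 : K ≤ K ⊔ Subgroup.zpowers h := le_sup_left
  rw [← Subgroup.relIndex_mul_index h1]
  apply Nat.mul_le_mul_right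
  have h2 : K.relIndex (K ⊔ Subgroup.zpowers h) ≠ 1 := by
    rw [Ne, Subgroup.relIndex_eq_one]
    intro h3
    exact hh (h3 (Subgroup.mem_sup_right (Subgroup.mem_zpowers h)))
  have h3 : K.relIndex (K ⊔ Subgroup.zpowers h) ≠ 0 := by
    unfold Subgroup.relIndex
    exact Subgroup.index_ne_zero_of_finite
  omega

theorem card_gd (K : Subgroup H) :
    2 ^ K.index ≤ Nat.card (Gd K) + Nat.card H * 2 ^ (K.index / 2) := by
  have : Fintype H := Fintype.ofFinite H
  have hcard : ∀ s : Set (Set H), Nat.card s = (Finset.univ.filter fun Δ : Set H => Δ ∈ s).card := by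
    intro s
    rw [Nat.card_eq_fintype_card, ← Set.toFinset_card]
    congr 1
    ext Δ
    simp
  have hsub : (Finset.univ.filter fun Δ : Set H => Δ ∈ Stb K) ⊆
      (Finset.univ.filter fun Δ : Set H => Δ ∈ Gd K) ∪ ({∅} ∪
        (Finset.univ.filter fun h : H => h ∉ K).biUnion fun h =>
          Finset.univ.filter fun Δ : Set H => Δ ∈ Stb (K ⊔ Subgroup.zpowers h)) := by
    intro Δ hΔ
    rw [Finset.mem_filter] at hΔ
    rw [Finset.mem_union, Finset.mem_union, Finset.mem_singleton, Finset.mem_biUnion,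
      Finset.mem_filter]
    by_cases h1 : Δ ∈ Gd K
    · exact Or.inl ⟨Finset.mem_univ _, h1⟩
    · right
      by_cases h2 : Δ = ∅
      · exact Or.inl h2
      · right
        have h3 : ¬ ∀ h : H, (∀ w, h • w ∈ Δ ↔ w ∈ Δ) ↔ h ∈ K := fun h4 =>
          h1 ⟨h4, Set.nonempty_iff_ne_empty.2 h2⟩
        push Not at h3
        obtain ⟨h, h4 | h4⟩ := h3
        · refine ⟨h, Finset.mem_filter.2 ⟨Finset.mem_univ _, h4.2⟩,
            Finset.mem_filter.2 ⟨Finset.mem_univ _, stb_sup hΔ.2 h4.1⟩⟩
        · exfalso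
          obtain ⟨⟨w, hw⟩, hK⟩ := h4
          have h5 := hΔ.2 h hK w
          rcases hw with ⟨h6, h7⟩ | ⟨h6, h7⟩
          · exact h7 (h5.1 h6)
          · exact h6 (h5.2 h7)
  have h1 := (Finset.card_le_card hsub).trans (Finset.card_union_le _ _)
  rw [← hcard, card_stb, ← hcard] at h1
  refine h1.trans (Nat.add_le_add_left ?_ _)
  refine (Finset.card_union_le _ _).trans ?_
  rw [Finset.card_singleton]
  have h2 : ((Finset.univ.filter fun h : H => h ∉ K).biUnion fun h =>
      Finset.univ.filter fun Δ : Set H => Δ ∈ Stb (K ⊔ Subgroup.zpowers h)).card ≤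
      (Finset.univ.filter fun h : H => h ∉ K).card * 2 ^ (K.index / 2) := by
    refine Finset.card_biUnion_le_card_mul _ _ _ fun h hh => ?_
    rw [Finset.mem_filter] at hh
    rw [← hcard, card_stb]
    apply Nat.pow_le_pow_right (by norm_num)
    have := two_mul_index hh.2
    omega
  have h3 : (Finset.univ.filter fun h : H => h ∉ K).card + 1 ≤ Nat.card H := by
    rw [Nat.card_eq_fintype_card, ← Finset.card_univ]
    apply Nat.succ_le_of_lt
    apply Finset.card_lt_card
    rw [Finset.ssubset_iff_subset_ne]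
    refine ⟨Finset.filter_subset _ _, fun h => ?_⟩
    have h4 : (1 : H) ∈ (Finset.univ.filter fun h : H => h ∉ K) := by
      rw [h]
      exact Finset.mem_univ _
    exact (Finset.mem_filter.1 h4).2 K.one_mem
  have h4 : 1 ≤ 2 ^ (K.index / 2) := Nat.one_le_two_pow
  calc 1 + _ ≤ 2 ^ (K.index / 2) + (Finset.univ.filter fun h : H => h ∉ K).card * 2 ^ (K.index / 2) :=
        Nat.add_le_add h4 h2
    _ = ((Finset.univ.filter fun h : H => h ∉ K).card + 1) * 2 ^ (K.index / 2) := by ring
    _ ≤ Nat.card H * 2 ^ (K.index / 2) := Nat.mul_le_mul_right _ h3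

/-- a map which separates the orbits has a large image -/
theorem card_image {B : Type} (K : Subgroup H) (f : Gd K → B)
    (hf : ∀ Δ Δ', f Δ = f Δ' → ∃ h : H, ∀ w, w ∈ Δ.1 ↔ h⁻¹ • w ∈ Δ'.1) :
    ∃ S : Finset B, (∀ b ∈ S, ∃ Δ, f Δ = b) ∧
      2 ^ K.index ≤ Nat.card H * (S.card + 2 ^ (K.index / 2)) := by
  have : Fintype H := Fintype.ofFinite H
  have : Fintype (Gd K) := Fintype.ofFinite _
  refine ⟨Finset.univ.image f, fun b hb => ?_, ?_⟩
  · obtain ⟨Δ, _, h⟩ := Finset.mem_image.1 hb
    exact ⟨Δ, h⟩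
  · have h1 : (Finset.univ : Finset (Gd K)).card ≤ Nat.card H * (Finset.univ.image f).card := by
      refine Finset.card_le_mul_card_image _ _ fun b hb => ?_
      obtain ⟨Δ, _, rfl⟩ := Finset.mem_image.1 hb
      rw [Nat.card_eq_fintype_card, ← Finset.card_univ]
      refine le_trans ?_ (Finset.card_image_le (s := (Finset.univ : Finset H))
        (f := fun h => {w | h⁻¹ • w ∈ Δ.1}))
      refine Finset.card_le_card_of_injOn (fun Δ' => Δ'.1) ?_ ?_
      · intro Δ' hΔ'
        have h2 := (Finset.mem_filter.1 hΔ').2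
        obtain ⟨h, hh⟩ := hf Δ' Δ h2
        rw [Finset.mem_coe, Finset.mem_image]
        refine ⟨h, Finset.mem_univ _, ?_⟩
        ext w
        exact (hh w).symm
      · intro a _ b _ h
        exact Subtype.ext h
    rw [Finset.card_univ, ← Nat.card_eq_fintype_card] at h1
    have h2 := card_gd K
    calc 2 ^ K.index ≤ Nat.card (Gd K) + Nat.card H * 2 ^ (K.index / 2) := h2
      _ ≤ Nat.card H * (Finset.univ.image f).card + Nat.card H * 2 ^ (K.index / 2) :=
          Nat.add_le_add_right h1 _
      _ = _ := by ring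

end stb

section arith

theorem fac_le : ∀ n : ℕ, 5 ≤ n → n.factorial ≤ 2 ^ ((n - 1).factorial / 2) := by
  intro n hn
  induction n, hn using Nat.le_induction with
  | base => decide
  | succ n hn ih =>
    obtain ⟨k, rfl⟩ : ∃ k, n = k + 1 := ⟨n - 1, by omega⟩
    simp only [Nat.add_sub_cancel] at ih ⊢
    have h1 : (k + 1 + 1).factorial = (k + 2) * (k + 1).factorial := Nat.factorial_succ _
    have h2 : (k + 1).factorial = (k + 1) * k.factorial := Nat.factorial_succ _
    have h3 : 2 ∣ k.factorial := Nat.dvd_factorial (by norm_num) (by omega)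
    obtain ⟨q, hq⟩ := h3
    have h4 : (k + 1).factorial / 2 = (k + 1) * q := by
      rw [h2, hq]
      rw [show (k + 1) * (2 * q) = 2 * ((k + 1) * q) by ring]
      omega
    have h5 : k.factorial / 2 = q := by omega
    have hq1 : 1 ≤ q := by
      have := Nat.factorial_pos k
      omega
    rw [h5] at ih
    rw [h4, h1]
    have h6 : k + 2 ≤ 2 ^ (k * q) := by
      calc k + 2 ≤ 2 ^ k := by
            have : ∀ j : ℕ, j + 6 ≤ 2 ^ (j + 4) := by
              intro j
              induction j with
              | zero => norm_num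
              | succ j ihj => rw [pow_succ]; omega
            have h7 := this (k - 4)
            rw [show k - 4 + 6 = k + 2 by omega, show k - 4 + 4 = k by omega] at h7
            exact h7
        _ ≤ 2 ^ (k * q) := Nat.pow_le_pow_right (by norm_num) (Nat.le_mul_of_pos_right _ hq1)
    calc (k + 2) * (k + 1).factorial ≤ 2 ^ (k * q) * 2 ^ q := Nat.mul_le_mul h6 ih
      _ = 2 ^ ((k + 1) * q) := by
          rw [← pow_add]
          congr 1
          ring

theorem alt_card (n : ℕ) (hn : 5 ≤ n) :
    2 * Nat.card (alternatingGroup (Fin n)) = n.factorial := by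
  have : Nontrivial (Fin n) := Fin.nontrivial_iff_two_le.2 (by omega)
  have h2 := two_mul_nat_card_alternatingGroup (α := Fin n)
  rwa [Nat.card_perm, Nat.card_eq_fintype_card (α := Fin n), Fintype.card_fin] at h2

/-- the number of the elements of the image, for a small subgroup of the alternating group -/
theorem alt_bound {n g s : ℕ} (hn : 5 ≤ n) (hg : 0 < g) (hgn : 2 * g ≤ n)
    (K : Subgroup (alternatingGroup (Fin n))) (hK : Nat.card K = g)
    (h : 2 ^ K.index ≤ Nat.card (alternatingGroup (Fin n)) * (s + 2 ^ (K.index / 2))) :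
    K.index / 2 = n.factorial / (4 * g) ∧ 2 ^ (n.factorial / (4 * g)) ≤ s := by
  have h1 := alt_card n hn
  have h2 := K.card_mul_index
  rw [hK] at h2
  have h3 : K.index / 2 = n.factorial / (4 * g) := by
    have h4 : n.factorial = 2 * g * K.index := by rw [← h1, ← h2]; ring
    rw [h4, show 4 * g = 2 * g * 2 by ring]
    exact (Nat.mul_div_mul_left _ _ (by omega)).symm
  refine ⟨h3, ?_⟩
  rw [← h3]
  set k := K.index / 2 with hk
  -- `|A_n| ≤ 2 ^ (k - 1)`
  have h5 : (n - 1).factorial / 2 ≤ k := by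
    rw [h3]
    obtain ⟨j, rfl⟩ : ∃ j, n = j + 1 := ⟨n - 1, by omega⟩
    have h6 : (j + 1).factorial = (j + 1) * j.factorial := Nat.factorial_succ _
    simp only [Nat.add_sub_cancel]
    rw [Nat.le_div_iff_mul_le (by omega), h6]
    have h7 : j.factorial / 2 * 2 ≤ j.factorial := Nat.div_mul_le_self _ _
    calc j.factorial / 2 * (4 * g) = (2 * g) * (j.factorial / 2 * 2) := by ring
      _ ≤ (j + 1) * j.factorial := Nat.mul_le_mul hgn h7
  have h6 : 2 * Nat.card (alternatingGroup (Fin n)) ≤ 2 ^ k := by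
    rw [h1]
    exact (fac_le n hn).trans (Nat.pow_le_pow_right (by norm_num) h5)
  have h7 : 2 ^ k * 2 ^ k ≤ 2 ^ K.index := by
    rw [← pow_add]
    exact Nat.pow_le_pow_right (by norm_num) (by omega)
  have h8 : 0 < Nat.card (alternatingGroup (Fin n)) := Nat.card_pos
  have h9 : 2 ^ k * 2 ^ k ≤ Nat.card (alternatingGroup (Fin n)) * (s + 2 ^ k) := h7.trans h
  by_contra hs
  push Not at hs
  have h10 : Nat.card (alternatingGroup (Fin n)) * (s + 2 ^ k) <
      Nat.card (alternatingGroup (Fin n)) * (2 * 2 ^ k) :=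
    Nat.mul_lt_mul_of_pos_left (by omega) h8
  have h11 : Nat.card (alternatingGroup (Fin n)) * (2 * 2 ^ k) ≤ 2 ^ k * 2 ^ k := by
    calc Nat.card (alternatingGroup (Fin n)) * (2 * 2 ^ k)
        = 2 * Nat.card (alternatingGroup (Fin n)) * 2 ^ k := by ring
      _ ≤ 2 ^ k * 2 ^ k := Nat.mul_le_mul_right _ h6
  omega

end arith

end Pool.Agent.Helper13.VB
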