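import Pool.Agent.Helper18.AW.Bra
import Pool.Agent.Helper18.BR.Fin2

/-!
# Blocks of wreath products over different subsets are different
-/

set_option autoImplicit false
set_option linter.unusedSectionVars false

open scoped Classical
open MonoidAlgebra SemidirectProduct

noncomputable section

namespace Pool.Agent.Helper13.VB

open Pool.Agent.Helper18.BR Pool.Agent.Helper18.AW

section cross

variable {Λ : Type} [CommRing Λ] {X S G : Type} [Group X] [Finite X] [Group S] [Finite S] [Group G]
  [Finite G] {T T' : Subgroup X} {m : Type} [Fintype m] [Nonempty m] (M : MatBlock Λ S m)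

/-- the conjugates of the lifts are orthogonal if the conjugate of a lift of `S` to `T` is in the kernel
of the other homomorphism -/
theorem cross {κ : T →* S × G} {κ' : T' →* S × G} {u u' : Λ} (z z' : MonoidAlgebra Λ G) (x : X)
    {j : S → T} {t : S → T'} (ht : ∀ s, (t s : X) = x⁻¹ * (j s : X) * x)
    (h : (∀ s, κ (j s) = (s, 1) ∧ κ' (t s) = 1) ∨ (∀ s, κ (j s) = 1 ∧ κ' (t s) = (s, 1))) :
    inc T (lft u κ M.ε z) * single x 1 * inc T' (lft u' κ' M.ε z') = 0 := by
  have : Fintype S := Fintype.ofFinite _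
  let a : MonoidAlgebra Λ T := ∑ s, single (j s) (M.ε.coeff s)
  let b : MonoidAlgebra Λ T' := ∑ s, single (t s) (M.ε.coeff s)
  have hone : ∀ {T₁ : Subgroup X} (κ₁ : T₁ →* S × G) (j₁ : S → T₁), (∀ s, κ₁ (j₁ s) = (s, 1)) →
      push κ₁ (∑ s, single (j₁ s) (M.ε.coeff s)) = ten M.ε (1 : MonoidAlgebra Λ G) := by
    intro T₁ κ₁ j₁ hj
    rw [map_sum]
    ext ⟨s', g⟩
    rw [coeff_sum, Finset.sum_apply', ten_coeff, Finset.sum_eq_single s']
    · rw [push_single, hj, coeff_single, Finsupp.single_apply, one_def, coeff_single,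
        Finsupp.single_apply]
      by_cases hg : (1 : G) = g
      · rw [if_pos (by rw [hg]), if_pos hg, mul_one]
      · rw [if_neg (fun h => hg (congrArg Prod.snd h)), if_neg hg, mul_zero]
    · intro s _ hs
      rw [push_single, hj, coeff_single, Finsupp.single_apply, if_neg]
      intro h
      exact hs (congrArg Prod.fst h)
    · intro h
      exact absurd (Finset.mem_univ _) h
  have hzero : ∀ {T₁ : Subgroup X} (κ₁ : T₁ →* S × G) (j₁ : S → T₁), (∀ s, κ₁ (j₁ s) = 1) →
      push κ₁ (∑ s, single (j₁ s) (M.ε.coeff s)) = 0 := by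
    intro T₁ κ₁ j₁ hj
    rw [map_sum]
    have h4 : ∀ s, push κ₁ (single (j₁ s) (M.ε.coeff s)) = single 1 (M.ε.coeff s) := by
      intro s
      rw [push_single, hj]
    rw [Finset.sum_congr rfl fun s _ => h4 s]
    have h5 := (map_sum (singleAddHom (R := Λ) (1 : S × G)) (fun s => M.ε.coeff s)
      Finset.univ).symm
    refine h5.trans ?_
    have h6 := M.aug
    rw [finsum_eq_sum_of_fintype] at h6
    rw [h6, map_zero]
  have h5 : inc T a * single x 1 = single x 1 * inc T' b := by
    change inc T (∑ s, single (j s) (M.ε.coeff s)) * _ =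
      _ * inc T' (∑ s, single (t s) (M.ε.coeff s))
    rw [map_sum, map_sum, Finset.sum_mul, Finset.mul_sum]
    refine Finset.sum_congr rfl fun s _ => ?_
    rw [inc_single, inc_single, single_mul_single, single_mul_single, mul_one, one_mul, ht s]
    congr 1
    group
  rcases h with h | h
  · have h2 : lft u κ M.ε z * a = lft u κ M.ε z := by
      unfold lft
      rw [infl_mul, hone κ j fun s => (h s).1, ten_mul_ten_one M.idem]
    have h4 : b * lft u' κ' M.ε z' = 0 := by
      unfold lft
      rw [mul_infl, hzero κ' t fun s => (h s).2, zero_mul, infl_zero]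
    calc inc T (lft u κ M.ε z) * single x 1 * inc T' (lft u' κ' M.ε z')
        = inc T (lft u κ M.ε z) * (inc T a * single x 1) * inc T' (lft u' κ' M.ε z') := by
          conv_lhs => lhs; lhs; rw [← h2, map_mul]
          simp only [mul_assoc]
      _ = inc T (lft u κ M.ε z) * single x 1 * inc T' (b * lft u' κ' M.ε z') := by
          rw [h5, map_mul]
          simp only [mul_assoc]
      _ = 0 := by rw [h4, map_zero, mul_zero]
  · have h2 : lft u κ M.ε z * a = 0 := by
      unfold lft
      rw [infl_mul, hzero κ j fun s => (h s).1, mul_zero, infl_zero]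
    have h4 : b * lft u' κ' M.ε z' = lft u' κ' M.ε z' := by
      unfold lft
      rw [mul_infl, hone κ' t fun s => (h s).2, ten_one_mul M.idem]
    calc inc T (lft u κ M.ε z) * single x 1 * inc T' (lft u' κ' M.ε z')
        = inc T (lft u κ M.ε z) * (single x 1 * inc T' b) * inc T' (lft u' κ' M.ε z') := by
          conv_lhs => rhs; rw [← h4, map_mul]
          simp only [mul_assoc]
      _ = inc T (lft u κ M.ε z * a) * single x 1 * inc T' (lft u' κ' M.ε z') := by
          rw [← h5, map_mul]
          simp only [mul_assoc]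
      _ = 0 := by rw [h2, map_zero, zero_mul, zero_mul]

/-- orthogonal lifts have different traces -/
theorem tr_ne {f : MonoidAlgebra Λ T} {f' : MonoidAlgebra Λ T'} (hf : f ≠ 0)
    (hc : ∀ y, f * y = y * f) (he : f * f = f) (ho : Orth f)
    (h : ∀ x : X, inc T f * single x 1 * inc T' f' = 0) : tr f ≠ tr f' := by
  intro heq
  have h1 := inc_mul_tr hc he ho
  rw [heq] at h1
  have h2 : inc T f * tr f' = 0 := by
    rw [tr_eq, Finset.mul_sum]
    refine Finset.sum_eq_zero fun q _ => ?_
    rw [← mul_assoc, ← mul_assoc, h, zero_mul]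
  rw [h2] at h1
  apply hf
  apply inc_inj T
  rw [← h1, map_zero]

end cross

section subset

variable {S H G Ω : Type} [CommGroup S] [Finite S] [Group H] [Finite H] [Group G] [Finite G]
  [MulAction H Ω] [Finite Ω] {i : G →* H} (hi : Function.Injective i) {Δ Δ' : Set Ω}
  (hΔ : ∀ h : H, (∀ w, h • w ∈ Δ ↔ w ∈ Δ) ↔ h ∈ i.range)
  (hΔ' : ∀ h : H, (∀ w, h • w ∈ Δ' ↔ w ∈ Δ') ↔ h ∈ i.range)

/-- conjugates, abelian `S` -/
theorem conj_left (x : Wr S H Ω) (f : Ω → S) (v : Ω) :
    (x⁻¹ * inl f * x).left v = f (x.right • v) := by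
  have h1 : (x⁻¹ * inl f * x).left = mulAutArrow x.right⁻¹ (x.left⁻¹ * f * x.left) := by
    rw [SemidirectProduct.mul_left, SemidirectProduct.mul_left, SemidirectProduct.mul_right,
      SemidirectProduct.inv_left, SemidirectProduct.inv_right, left_inl, right_inl, mul_one,
      map_mul, map_mul]
  rw [h1, arr_apply, inv_inv]
  have h2 : x.left⁻¹ * f * x.left = f := by
    rw [mul_comm, mul_inv_cancel_left]
  rw [h2]

theorem rk_mem_not {w : Ω} (hw : w ∉ Δ) (s : S) (t : RT S Ω i)
    (ht : t.1 = inl (Pi.mulSingle w s)) : rk hi hΔ t = 1 := by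
  refine rk_eq hi hΔ ?_ ?_
  · refine (finprod_congr fun v => ?_).trans finprod_one
    rw [ht, left_inl]
    refine Pi.mulSingle_eq_of_ne (M := fun _ => S) ?_ s
    rintro rfl
    exact hw v.2
  · rw [ht, right_inl, map_one]

theorem rk_mem {w : Ω} (hw : w ∈ Δ) (s : S) (t : RT S Ω i)
    (ht : t.1 = inl (Pi.mulSingle w s)) : rk hi hΔ t = (s, 1) := by
  refine rk_eq hi hΔ ?_ ?_
  · rw [ht, left_inl]
    exact prod_single s hw
  · rw [ht, right_inl, map_one]

theorem conj_eq (x : Wr S H Ω) (w : Ω) (s : S) :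
    x⁻¹ * inl (Pi.mulSingle w s) * x = inl (Pi.mulSingle (x.right⁻¹ • w) s) := by
  refine SemidirectProduct.ext ?_ ?_
  · funext v
    rw [conj_left, left_inl]
    by_cases h : x.right • v = w
    · rw [← h, inv_smul_smul, Pi.mulSingle_eq_same (M := fun _ => S),
        Pi.mulSingle_eq_same (M := fun _ => S)]
    · rw [Pi.mulSingle_eq_of_ne (M := fun _ => S) h, Pi.mulSingle_eq_of_ne (M := fun _ => S)]
      intro h2
      apply h
      rw [h2, smul_inv_smul]
  · rw [(conj_single x w s).1, right_inl]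

variable {Λ : Type} [CommRing Λ] {m : Type} [Fintype m] [Nonempty m] (M : MatBlock Λ S m)

/-- the lifts for two subsets which are not in the same orbit are orthogonal -/
theorem cross_rk {u u' : Λ} (z z' : MonoidAlgebra Λ G)
    (hne : ∀ h : H, ∃ w, ¬ (w ∈ Δ ↔ h⁻¹ • w ∈ Δ')) (x : Wr S H Ω) :
    inc _ (lft u (rk (S := S) hi hΔ) M.ε z) * single x 1 *
      inc _ (lft u' (rk (S := S) hi hΔ') M.ε z') = 0 := by
  obtain ⟨w, hw⟩ := hne x.right
  have hmem : ∀ s : S, x⁻¹ * inl (Pi.mulSingle w s) * x ∈ RT S Ω i := fun s =>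
    ⟨1, (map_one i).trans (conj_single x w s).1.symm⟩
  have hmem2 : ∀ s : S, (inl (Pi.mulSingle w s) : Wr S H Ω) ∈ RT S Ω i := fun s => ⟨1, map_one i⟩
  refine cross M z z' x (j := fun s => ⟨_, hmem2 s⟩) (t := fun s => ⟨_, hmem s⟩)
    (fun s => rfl) ?_
  by_cases h : w ∈ Δ
  · left
    intro s
    refine ⟨rk_mem hi hΔ h s _ rfl, rk_mem_not hi hΔ' (w := x.right⁻¹ • w) ?_ s _
      (conj_eq x w s)⟩
    intro h2
    exact hw (iff_of_true h h2)
  · right
    intro s
    refine ⟨rk_mem_not hi hΔ h s _ rfl, rk_mem hi hΔ' (w := x.right⁻¹ • w) ?_ s _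
      (conj_eq x w s)⟩
    by_contra h2
    exact hw (iff_of_false h h2)

end subset

end Pool.Agent.Helper13.VB
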