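import Pool.Agent.Helper18.NV.Main
import Pool.Agent.Helper13.VB.Cnt

/-!
# Navarro's equality: the failing blocks of wreath products
-/

set_option autoImplicit false
set_option linter.unusedSectionVars false
set_option maxHeartbeats 1000000

open scoped Classical
open MonoidAlgebra SemidirectProduct

noncomputable section

namespace Pool.Agent.Helper13.VB

open Pool.Agent.Helper18.BR Pool.Agent.Helper18.AW Pool.Agent.Helper18.NV
open Pool.Agent.Y63.NV (IsClassFun InDefect IsInvBlock numIBr numDz Navarro NavarroTheta theta_iff)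
open Pool.Agent.Y63.AWC (pSubgroupSetoid)

/-- Navarro's equality (with the sum over `Θ_B`) fails for the `Γ`-invariant block `B` of `G`. -/
def Fails (p : ℕ) {F : Type} [Field F] (red : integralClosure ℤ ℂ →+* F) {Γ : Type} [Group Γ]
    (G : Subgroup Γ) (B : (G → F) → F) : Prop :=
  Pool.Agent.Y63.NV.IsBlock B ∧ IsInvBlock G B ∧
    numIBr G B ≠ ∑ᶠ c : Quotient (pSubgroupSetoid p Γ),
      if G ⊔ c.out.1 = ⊤ ∧ InDefect p G B c.out.1 then numDz p red G c.out.1 B else 0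

/-- `S` is a set of `Γ`-invariant blocks of `G` for which Navarro's equality fails; the members are
different blocks (they differ at class functions). -/
def Failing (p : ℕ) {F : Type} [Field F] (red : integralClosure ℤ ℂ →+* F) {Γ : Type} [Group Γ]
    (G : Subgroup Γ) (S : Finset ((G → F) → F)) : Prop :=
  (∀ B ∈ S, Fails p red G B) ∧ ∀ B ∈ S, ∀ B' ∈ S, B ≠ B' → ∃ f : G → F, IsClassFun f ∧ B f ≠ B' f

theorem theta_iff_fails (p : ℕ) {F : Type} [Field F] (red : integralClosure ℤ ℂ →+* F) {Γ : Type}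
    [Group Γ] (G : Subgroup Γ) : NavarroTheta p red G ↔ ∀ B : (G → F) → F, ¬ Fails p red G B := by
  constructor
  · rintro h B ⟨h1, h2, h3⟩
    exact h3 (h B h1 h2)
  · intro h B h1 h2
    by_contra h3
    exact h B ⟨h1, h2, h3⟩

theorem theta_sum (p : ℕ) [Fact p.Prime] (F : Type) [Field F] [IsAlgClosed F] [CharP F p]
    (red : integralClosure ℤ ℂ →+* F) (Γ : Type) [Group Γ] [Finite Γ] (G : Subgroup Γ)
    [G.Normal] (B : (G → F) → F) (hB : Pool.Agent.Y63.NV.IsBlock B) (hI : IsInvBlock G B) :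
    (∑ᶠ c : Quotient (pSubgroupSetoid p Γ),
        if G ⊔ c.out.1 = ⊤ ∧ InDefect p G B c.out.1 then numDz p red G c.out.1 B else 0) =
      ∑ᶠ c : Quotient (pSubgroupSetoid p Γ),
        if G ⊔ c.out.1 = ⊤ then numDz p red G c.out.1 B else 0 := by
  refine finsum_congr fun c => ?_
  by_cases h1 : G ⊔ c.out.1 = ⊤
  · by_cases h2 : InDefect p G B c.out.1
    · rw [if_pos ⟨h1, h2⟩, if_pos h1]
    · rw [if_neg (fun h => h2 h.2), if_pos h1]
      by_contra h3
      exact h2 (Pool.Agent.Y63.NV.wdef' p F red Γ G B hB hI c.out.1 c.out.2 (fun h => h3 h.symm))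
  · rw [if_neg (fun h => h1 h.1), if_neg h1]

section zero

variable {F : Type} [Field F] {Y : Type} [Group Y] [Finite Y] {G : Type} [Group G] [Finite G]
  {T T' : Subgroup Y} (D : Dat F G T) (D' : Dat F G T')

theorem bD_tr_self {B : (G → F) → F} (hB : Pool.Agent.Y63.NV.IsBlock B) :
    bv (bD D B) (tr D.e) = 1 := by
  rw [bv_bD, D.psi_tr D.central D.idem, D.map_e, bv_one hB]

theorem bD_tr_zero {B : (G → F) → F} (hB : Pool.Agent.Y63.NV.IsBlock B)
    (h : ∀ x : Y, inc T' D'.e * single x 1 * inc T D.e = 0) :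
    bv (bD D' B) (tr D.e) = 0 := by
  have h1 : inc T' D'.e * tr D.e = 0 := by
    rw [tr_eq, Finset.mul_sum]
    refine Finset.sum_eq_zero fun q _ => ?_
    rw [← mul_assoc, ← mul_assoc, h, zero_mul]
  have h2 := D'.mid (tr D.e)
  rw [h1, zero_mul] at h2
  have h3 : D'.ℓ (D'.ψ (res T' (tr D.e))) = 0 := by
    apply inc_inj T'
    rw [← h2, map_zero]
  have h4 : D'.ψ (res T' (tr D.e)) = 0 := by
    rw [← D'.sec (D'.ψ (res T' (tr D.e))), h3, map_zero]
  rw [bv_bD, h4]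
  have h5 := bv_smul hB (0 : F) (a := (0 : MonoidAlgebra F G)) (fun x => by
    unfold cj
    rw [mul_zero, zero_mul])
  rw [zero_smul, zero_mul] at h5
  exact h5

end zero

section one

variable {F : Type} [Field F] {X S Γ : Type} [Group X] [Finite X]
  [CommGroup S] [Finite S] [Group Γ] [Finite Γ] {T : Subgroup X} {κ : T →* S × Γ}
  {X₀ : Subgroup X} {G : Subgroup Γ} [hX₀ : X₀.Normal] [G.Normal]
  (hG : ∀ t : T, (t : X) ∈ X₀ ↔ (κ t).2 ∈ G)
  (hXT : ∀ x : X, ∃ t : T, x * (t : X)⁻¹ ∈ X₀)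
  {m : Type} [Fintype m] [Nonempty m] (M : MatBlock F S m)
  {u : F} (hκ : Function.Surjective κ) (hu : u * (Nat.card κ.ker : F) = 1) (hs : Sep κ)
  {p : ℕ} [hp : Fact p.Prime] [CharP F p] (hS : ¬ p ∣ Nat.card S)
  (hK : ¬ p ∣ Nat.card κ.ker) (σ : Γ →* T) (hσ : ∀ g, κ (σ g) = (1, g))

include hS hK hσ hXT hG hs hκ hu M in
/-- transfer of one block -/
theorem fails_transfer [IsAlgClosed F] (red : integralClosure ℤ ℂ →+* F) {B : (G → F) → F}
    (h : Fails p red G B) : Fails p red X₀ (bD (D0 hG M hκ hu hs) B) := by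
  obtain ⟨hB, hI, h0⟩ := h
  have hB' := bD_block (D0 (X₀ := X₀) hG M hκ hu hs) hB
  have hI' := bD_inv (X₀ := X₀) hG hXT M hκ hu hs hI
  refine ⟨hB', hI', ?_⟩
  rw [theta_sum p F red Γ G B hB hI] at h0
  rw [theta_sum p F red X X₀ _ hB' hI']
  intro h1
  apply h0
  obtain ⟨z, hz⟩ := exists_sepH (zs_comm (G := G)) (homS hB)
  have h2 := sepH_lf (X₀ := X₀) hG M hκ hu hs hB hz
  rw [numIBr_eq hG hXT M hκ hu hs hB hI, rhs_eq red (zs_inZ _)
    (sepr_of_sepH (bD_block (D0 hG M hκ hu hs) hB) h2), mk_coe,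
    wt_lf hG hXT M hκ hu hs hS hK σ hσ hz.1] at h1
  rw [h1, rhs_eq red (zs_inZ _) (sepr_of_sepH hB hz), mk_coe]

end one

section wr

variable (p : ℕ) [hp : Fact p.Prime] (F : Type) [Field F] [IsAlgClosed F] [CharP F p]
  (red : integralClosure ℤ ℂ →+* F) (S : Type) [CommGroup S] [Finite S] [Nontrivial S]
  (hS : ¬ p ∣ Nat.card S)

include hS in
/-- the failing blocks of the wreath product -/
theorem exists_map_nav {K Γ : Type} [Group K] [Finite K] [Group Γ] [Finite Γ] {i : Γ →* K}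
    (hi : Function.Injective i) (N : Subgroup K) [hN : N.Normal]
    (hT : ∀ k : K, ∃ g : Γ, k * (i g)⁻¹ ∈ N) {B : (N.comap i → F) → F}
    (h : Fails p red (N.comap i) B) :
    ∃ f : Gd i.range → ((N.comap (SemidirectProduct.rightHom : Wr S K K →* K)) → F) → F,
      (∀ Δ, Fails p red (N.comap (SemidirectProduct.rightHom : Wr S K K →* K)) (f Δ)) ∧
      ∀ Δ Δ', (∃ h : K, ∀ w, w ∈ Δ.1 ↔ h⁻¹ • w ∈ Δ'.1) ∨
        ∃ c, IsClassFun c ∧ f Δ c ≠ f Δ' c := by
  have h0 : (Nat.card S : F) ≠ 0 := fun h => hS ((CharP.cast_eq_zero_iff F p _).1 h)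
  obtain ⟨m, i1, i2, ⟨M⟩⟩ := (good_of_nontrivial h0).exists_matBlock (isUnit_iff_ne_zero.2 h0)
  obtain ⟨w, hw⟩ := (isUnit_iff_ne_zero.2 h0).exists_left_inv
  have hd : ∀ Δ : Gd i.range, Nat.card (rk (S := S) hi Δ.2.1).ker ∣ Nat.card S ^ Nat.card K :=
    fun Δ => rk_ker_dvd hi Δ.2.1
  have hu : ∀ Δ : Gd i.range, ∃ u : F, u * (Nat.card (rk (S := S) hi Δ.2.1).ker : F) = 1 := fun Δ =>
    unit_of_dvd (hd Δ) hw
  choose u hu using hu
  have hG : ∀ (Δ : Gd i.range) (t : RT S K i),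
      (t : Wr S K K) ∈ N.comap (SemidirectProduct.rightHom : Wr S K K →* K) ↔
        (rk (S := S) hi Δ.2.1 t).2 ∈ N.comap i := by
    intro Δ t
    rw [Subgroup.mem_comap, Subgroup.mem_comap]
    have h1 : i (rk hi Δ.2.1 t).2 = t.1.right := i_rG hi t
    rw [h1]
    rfl
  have hXT : ∀ x : Wr S K K, ∃ t : RT S K i,
      x * (t : Wr S K K)⁻¹ ∈ N.comap (SemidirectProduct.rightHom : Wr S K K →* K) := by
    intro x
    obtain ⟨g, hg⟩ := hT x.right
    refine ⟨rs S K i g, ?_⟩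
    rw [Subgroup.mem_comap]
    exact hg
  refine ⟨fun Δ => bD (D0 (hG Δ) M (rk_surj hi Δ.2.1 Δ.2.2) (hu Δ) (sep_rk hi Δ.2.1)) B,
    fun Δ => ?_, fun Δ Δ' => ?_⟩
  · exact fails_transfer (hG Δ) hXT M (rk_surj hi Δ.2.1 Δ.2.2) (hu Δ) (sep_rk hi Δ.2.1) hS
      (not_dvd_ker (hd Δ) hS) (rs S K i) (rk_rs hi Δ.2.1) red h
  · by_cases hor : ∃ h : K, ∀ w, w ∈ Δ.1 ↔ h⁻¹ • w ∈ Δ'.1
    · exact Or.inl hor
    · right
      push Not at hor
      set D := D0 (X₀ := N.comap (SemidirectProduct.rightHom : Wr S K K →* K)) (hG Δ) M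
        (rk_surj hi Δ.2.1 Δ.2.2) (hu Δ) (sep_rk hi Δ.2.1) with hD
      set D' := D0 (X₀ := N.comap (SemidirectProduct.rightHom : Wr S K K →* K)) (hG Δ') M
        (rk_surj hi Δ'.2.1 Δ'.2.2) (hu Δ') (sep_rk hi Δ'.2.1) with hD'
      refine ⟨fun x => (tr D.e).coeff x, class_mk (tr_central D.central), ?_⟩
      have h1 : bv (bD D B) (tr D.e) = 1 := bD_tr_self D h.1
      have h2 : bv (bD D' B) (tr D.e) = 0 := by
        refine bD_tr_zero D D' h.1 fun x => ?_
        -- the two lifts are orthogonal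
        obtain ⟨w, hw⟩ := hor x.1.right⁻¹
        rw [inv_inv] at hw
        -- `w ∈ Δ` and `x w ∈ Δ'` are not equivalent
        set v := x.1.right • w with hv
        have hw' : ¬ (v ∈ Δ'.1 ↔ x.1.right⁻¹ • v ∈ Δ.1) := by
          rw [hv, inv_smul_smul]
          rcases hw with ⟨h3, h4⟩ | ⟨h3, h4⟩
          · exact fun h5 => h4 (h5.2 h3)
          · exact fun h5 => h3 (h5.1 h4)
        have hmN : ∀ s : S, (inl (Pi.mulSingle v s) : Wr S K K) ∈
            N.comap (SemidirectProduct.rightHom : Wr S K K →* K) := fun s => by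
          rw [Subgroup.mem_comap]
          exact N.one_mem
        have hm1 : ∀ s : S, (inl (Pi.mulSingle v s) : Wr S K K) ∈ RT S K i := fun s =>
          ⟨1, map_one i⟩
        have hcN : ∀ s : S, x.1⁻¹ * inl (Pi.mulSingle v s) * x.1 ∈
            N.comap (SemidirectProduct.rightHom : Wr S K K →* K) := fun s =>
          Subgroup.mul_mem _ (Subgroup.mul_mem _ (Subgroup.inv_mem _ x.2) (hmN s)) x.2
        have hc1 : ∀ s : S, x.1⁻¹ * inl (Pi.mulSingle v s) * x.1 ∈ RT S K i := fun s =>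
          ⟨1, (map_one i).trans (conj_single x.1 v s).1.symm⟩
        refine cross M 1 1 x (j := fun s => ⟨⟨_, hmN s⟩, hm1 s⟩) (t := fun s => ⟨⟨_, hcN s⟩, hc1 s⟩)
          (fun s => Subtype.ext rfl) ?_
        by_cases h5 : v ∈ Δ'.1
        · left
          intro s
          refine ⟨k0_eq (hG Δ') (rk_mem hi Δ'.2.1 h5 s _ rfl), (k0_one (hG Δ)).2
            (rk_mem_not hi Δ.2.1 (w := x.1.right⁻¹ • v) (fun h6 => hw' (iff_of_true h5 h6)) s _
              (conj_eq x.1 v s))⟩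
        · right
          intro s
          refine ⟨(k0_one (hG Δ')).2 (rk_mem_not hi Δ'.2.1 h5 s _ rfl), k0_eq (hG Δ)
            (rk_mem hi Δ.2.1 (w := x.1.right⁻¹ • v) ?_ s _ (conj_eq x.1 v s))⟩
          by_contra h6
          exact hw' (iff_of_false h5 h6)
      change bv (bD D B) (tr D.e) ≠ bv (bD D' B) (tr D.e)
      rw [h1, h2]
      exact one_ne_zero

end wr

section sel

variable {H : Type} [Group H] [Finite H]

/-- two subsets are in the same orbit -/
def orb (K : Subgroup H) : Setoid (Gd K) where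
  r Δ Δ' := ∃ h : H, ∀ w, w ∈ Δ.1 ↔ h⁻¹ • w ∈ Δ'.1
  iseqv :=
    { refl := fun Δ => ⟨1, fun w => by rw [inv_one, one_smul]⟩
      symm := by
        rintro Δ Δ' ⟨h, hh⟩
        refine ⟨h⁻¹, fun w => ?_⟩
        have h1 := hh (h • w)
        rw [inv_smul_smul] at h1
        rw [inv_inv]
        exact h1.symm
      trans := by
        rintro Δ Δ' Δ'' ⟨h, hh⟩ ⟨k, hk⟩
        refine ⟨h * k, fun w => ?_⟩
        rw [hh, hk, mul_inv_rev, mul_smul] }

/-- selection of one subset in each orbit -/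
theorem card_image_sel {B : Type} (K : Subgroup H) (E : B → B → Prop) (hE : ∀ b, ¬ E b b)
    (f : Gd K → B) (hf : ∀ Δ Δ', (∃ h : H, ∀ w, w ∈ Δ.1 ↔ h⁻¹ • w ∈ Δ'.1) ∨ E (f Δ) (f Δ')) :
    ∃ S : Finset B, (∀ b ∈ S, ∃ Δ, f Δ = b) ∧ (∀ b ∈ S, ∀ b' ∈ S, b ≠ b' → E b b') ∧
      2 ^ K.index ≤ Nat.card H * (S.card + 2 ^ (K.index / 2)) := by
  let g : Gd K → B := fun Δ => f (Quotient.out (Quotient.mk (orb K) Δ))
  have hg : ∀ Δ Δ', g Δ = g Δ' → ∃ h : H, ∀ w, w ∈ Δ.1 ↔ h⁻¹ • w ∈ Δ'.1 := by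
    intro Δ Δ' h
    have h1 : (orb K).r (Quotient.out (Quotient.mk (orb K) Δ))
        (Quotient.out (Quotient.mk (orb K) Δ')) := by
      rcases hf (Quotient.out (Quotient.mk (orb K) Δ)) (Quotient.out (Quotient.mk (orb K) Δ'))
        with h2 | h2
      · exact h2
      · exfalso
        have h3 : g Δ = g Δ' := h
        change E (g Δ) (g Δ') at h2
        rw [h3] at h2
        exact hE _ h2
    have h2 : (orb K).r Δ (Quotient.out (Quotient.mk (orb K) Δ)) :=
      (orb K).symm (Quotient.mk_out Δ)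
    have h3 : (orb K).r (Quotient.out (Quotient.mk (orb K) Δ')) Δ' := Quotient.mk_out Δ'
    exact (orb K).trans h2 ((orb K).trans h1 h3)
  obtain ⟨S, hS1, hS2⟩ := card_image K g hg
  refine ⟨S, fun b hb => ?_, fun b hb b' hb' hne => ?_, hS2⟩
  · obtain ⟨Δ, h⟩ := hS1 b hb
    exact ⟨_, h⟩
  · obtain ⟨Δ, rfl⟩ := hS1 b hb
    obtain ⟨Δ', rfl⟩ := hS1 b' hb'
    rcases hf (Quotient.out (Quotient.mk (orb K) Δ)) (Quotient.out (Quotient.mk (orb K) Δ'))
        with h2 | h2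
    · exfalso
      apply hne
      have h3 : Quotient.mk (orb K) Δ = Quotient.mk (orb K) Δ' := by
        rw [← Quotient.out_eq (Quotient.mk (orb K) Δ), ← Quotient.out_eq (Quotient.mk (orb K) Δ')]
        exact Quotient.sound h2
      change f (Quotient.out (Quotient.mk (orb K) Δ)) = f (Quotient.out (Quotient.mk (orb K) Δ'))
      rw [h3]
    · exact h2

end sel

end Pool.Agent.Helper13.VB
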