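import Pool.Agent.Helper13.VB.Cross

/-!
# The violating blocks of a wreath product, for each subset with the given stabilizer
-/

set_option autoImplicit false
set_option linter.unusedSectionVars false

open scoped Classical
open MonoidAlgebra SemidirectProduct

noncomputable section

namespace Pool.Agent.Helper13.VB

open Pool.Agent.Helper18.BR Pool.Agent.Helper18.AW

/-- The block `e` of `ΛX` violates the statement `R` for the defect group `P`: it has a defect group `D`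
isomorphic to `P` and a Brauer correspondent `c`, and the block algebras of `e` and `c` are not related
by `R`. -/
def Violates {Λ : Type} [CommRing Λ] (p : ℕ) (R : Rel Λ) (P : Type) [Group P] {X : Type} [Group X]
    [Finite X] (e : MonoidAlgebra Λ X) : Prop :=
  IsBlock e ∧ ∃ (D : Subgroup X) (c : MonoidAlgebra Λ (Subgroup.normalizer (D : Set X))),
    IsDefect p e D ∧ Nonempty (D ≃* P) ∧ IsCor e D c ∧
    ∃ (A : Type) (_ : Ring A) (_ : Algebra Λ A) (B : Type) (_ : Ring B) (_ : Algebra Λ B),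
      IsAlg Λ e A ∧ IsAlg Λ c B ∧ ¬ R A B

theorem broue_iff {Λ : Type} [CommRing Λ] (p : ℕ) (R : Rel Λ) (P : Type) [Group P] (X : Type)
    [Group X] [Finite X] : Broue p R P X ↔ ∀ e : MonoidAlgebra Λ X, ¬ Violates p R P e := by
  constructor
  · rintro h e ⟨h1, D, c, h2, h3, h4, A, _, _, B, _, _, h5, h6, h7⟩
    exact h7 (h e D c h1 h2 h3 h4 A B h5 h6)
  · intro h e D c h1 h2 h3 h4 A _ _ B _ _ h5 h6
    by_contra h7
    exact h e ⟨h1, D, c, h2, h3, h4, A, _, _, B, _, _, h5, h6, h7⟩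

section broue

variable {Λ : Type} [CommRing Λ] [IsLocalRing Λ]
  {X S G : Type} [Group X] [Finite X] [Group S] [Finite S] [Group G] [Finite G]
  {T : Subgroup X} {κ : T →* S × G} {m : Type} [Fintype m] [Nonempty m] (M : MatBlock Λ S m)

include M in
theorem transfer_tr (p : ℕ) [Fact p.Prime] (hp : ¬ IsUnit (p : Λ)) {w : Λ}
    (hw : w * (Nat.card S : Λ) = 1) (hκ : Function.Surjective κ) (hsep : Sep κ) {n : ℕ}
    (hd : Nat.card κ.ker ∣ Nat.card S ^ n) (σ : G →* T) (hσ : ∀ g, κ (σ g) = (1, g)) {u : Λ}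
    (hu : u * (Nat.card κ.ker : Λ) = 1)
    {e : MonoidAlgebra Λ G} {D : Subgroup G} (he : IsBlock e)
    (hD : IsDefect p e D) {c : MonoidAlgebra Λ (Nm D)} (hc : IsCor e D c) :
    ∃ (D' : Subgroup X) (c' : MonoidAlgebra Λ (Nm D')),
      IsBlock (tr (lft u κ M.ε e)) ∧ IsDefect p (tr (lft u κ M.ε e)) D' ∧
      IsCor (tr (lft u κ M.ε e)) D' c' ∧ Nonempty (D' ≃* D) ∧
      (∀ (A : Type) [Ring A] [Algebra Λ A], IsAlg Λ e A →
        IsAlg Λ (tr (lft u κ M.ε e)) (Matrix (X ⧸ T) (X ⧸ T) (Matrix m m A))) ∧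
      ∀ (B : Type) [Ring B] [Algebra Λ B], IsAlg Λ c B →
        IsAlg Λ c' (Matrix (Nm D' ⧸ T.subgroupOf (Nm D')) (Nm D' ⧸ T.subgroupOf (Nm D'))
          (Matrix m m B)) := by
  have hSp : ¬ p ∣ Nat.card S := not_dvd_of_unit p hp (IsUnit.of_mul_eq_one w (by rw [mul_comm, hw]))
  have hK : ¬ p ∣ Nat.card κ.ker := not_dvd_ker hd hSp
  have huu : IsUnit u := IsUnit.of_mul_eq_one _ hu
  have hσi : Function.Injective σ := by
    intro a b hab
    have := congrArg κ hab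
    rw [hσ, hσ] at this
    exact congrArg Prod.snd this
  have hτi : Function.Injective (T.subtype.comp σ) := T.subtype_injective.comp hσi
  let E : Subgroup X := D.map (T.subtype.comp σ)
  have hET : E ≤ T := by
    rintro x ⟨d, _, rfl⟩
    exact (σ d).2
  have hEs : E.subgroupOf T = D.map σ := by
    change (D.map (T.subtype.comp σ)).comap T.subtype = _
    rw [← Subgroup.map_map]
    exact Subgroup.comap_map_eq_self_of_injective T.subtype_injective _
  have hEp : IsPGroup p E := hD.1.map _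
  have himg : (img κ (pT (T := T) hEp)).1 = D := by
    change (E.subgroupOf T).map ((MonoidHom.snd S G).comp κ) = D
    rw [hEs, Subgroup.map_map]
    have h1 : ((MonoidHom.snd S G).comp κ).comp σ = MonoidHom.id G := by
      ext g
      change (κ (σ g)).2 = g
      rw [hσ]
    rw [h1, Subgroup.map_id]
  have hnm : ∀ t : T, (t : X) ∈ Nm E → (κ t).2 ∈ Nm D := by
    intro t ht
    have h1 := snd_nm (κ := κ) (pT (T := T) hEp) ((mem_nm_sub hET).1 ht)
    rwa [himg] at h1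
  have hM : Match κ (E.subgroupOf T) D :=
    { fst := fun x hx => fst_one (κ := κ) hSp (pT (T := T) hEp).2 hx
      snd := fun x hx => by
        rw [hEs] at hx
        obtain ⟨d, hd, rfl⟩ := hx
        rw [hσ]
        exact hd
      ex := fun d hd => ⟨σ d, by rw [hEs]; exact ⟨d, hd, rfl⟩, hσ d⟩
      inj := fun x hx h => eq_one_of_ker hK (pT (T := T) hEp).2 hx h }
  have hmod := kY_card (D := D) hnm hK hET hEp
  obtain ⟨v, hv⟩ := unit_of_mod p hp hu hmod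
  have hYs : Function.Surjective (kY κ E D hnm) := kY_surj hEp himg hnm hκ hSp hK hET
  have hb1 : IsBlock (lft u κ M.ε e) := lft_isBlock M hκ hu he
  have hb2 : IsBlock (lft v (kY κ E D hnm) M.ε c) := lft_isBlock M hYs hv hc.1
  have ho1 : Orth (lft u κ M.ε e) := lft_orth M hsep e
  have ho2 : Orth (lft v (kY κ E D hnm) M.ε c) := lft_orth M (sep_kY hnm hsep hSp hK hET hEp) c
  have ht1 : IsTr (E.subgroupOf T) (lft u κ M.ε e) := isTr_lft M hκ hu hw hM hD.2.2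
  have hB1 : IsBlock (tr (lft u κ M.ε e)) := tr_isBlock hb1 ho1
  have hB2 : IsBlock (tr (lft v (kY κ E D hnm) M.ε c)) := tr_isBlock hb2 ho2
  refine ⟨E, tr (lft v (kY κ E D hnm) M.ε c), hB1, ⟨hEp, ?_, ?_⟩, ?_, ?_, ?_, ?_⟩
  · refine brNe_tr p hp hET hEp hb1.2.2.1 hb1.2.1 ho1 ?_
    refine brNe_lft M huu (fun s g hg => ?_) hD.2.1
    have hg1 : g ∈ Nm (img κ (pT (T := T) hEp)).1 := by
      rw [himg]
      exact Subgroup.centralizer_le_normalizer _ hg
    obtain ⟨t, ht, h1⟩ := exists_nm hκ hSp hK (pT (T := T) hEp) (s := s) hg1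
    refine ⟨t, ?_, h1⟩
    have h2 := (mem_cent_iff (κ := κ) hSp hK (pT (T := T) hEp) ht).2
    apply h2
    rw [himg, h1]
    exact hg
  · exact isTr_tr hET ht1
  · refine isCor_tr p hp hET hEp hb1.2.2.1 ht1 hb2.2.2.1 hB2 ?_
    intro n hn hnY hnc
    rw [lft_coeff, lft_coeff, map_mul, map_mul, map_mul, map_mul,
      rd_units_of p hp hu hv hmod]
    congr 2
    have h1 : kY κ E D hnm ⟨⟨n, hnY⟩, hn⟩ = ((κ ⟨n, hn⟩).1, ⟨(κ ⟨n, hn⟩).2, hnm ⟨n, hn⟩ hnY⟩) :=
      rfl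
    rw [h1]
    symm
    rw [rd_eq]
    refine hc.2 ⟨(κ ⟨n, hn⟩).2, hnm ⟨n, hn⟩ hnY⟩ ?_
    rw [mem_cent] at hnc ⊢
    intro d hd
    have h2 : σ d * ⟨n, hn⟩ = ⟨n, hn⟩ * σ d :=
      Subtype.ext (hnc (σ d : X) ⟨d, hd, rfl⟩)
    have h3 := congrArg (fun t => (κ t).2) h2
    simp only [map_mul, Prod.snd_mul, hσ] at h3
    exact h3
  · exact ⟨(D.equivMapOfInjective _ hτi).symm⟩
  · intro A _ _ hA
    exact tr_isAlg hb1.2.2.1 hb1.2.1 ho1 (lft_isAlg M hκ hu hA)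
  · intro B _ _ hB
    exact tr_isAlg hb2.2.2.1 hb2.2.1 ho2 (lft_isAlg M hYs hv hB)

end broue

section subset

variable (p : ℕ) [Fact p.Prime] {Λ : Type} [CommRing Λ] [IsLocalRing Λ]
  (hp : ¬ IsUnit (p : Λ)) (R : Rel Λ) (hR : MorInv R)
  {S G H Ω : Type} [CommGroup S] [Finite S] [Group G] [Finite G] [Group H] [Finite H]
  [MulAction H Ω] [Finite Ω] {i : G →* H} (hi : Function.Injective i) (P : Type) [Group P]

include hp hR hi in
/-- If a block of `G` violates the statement `R`, then there is a map from the nonempty subsets of `Ω`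
with stabilizer `i(G)` to the violating blocks of the wreath product which separates the orbits. -/
theorem exists_map (hS : IsUnit (Nat.card S : Λ)) (hgood : Good Λ S)
    (h : ¬ Broue (Λ := Λ) p R P G) :
    ∃ f : {Δ : Set Ω // (∀ h : H, (∀ w, h • w ∈ Δ ↔ w ∈ Δ) ↔ h ∈ i.range) ∧ Δ.Nonempty} →
        MonoidAlgebra Λ (Wr S H Ω),
      (∀ Δ, Violates p R P (f Δ)) ∧
      ∀ Δ Δ', f Δ = f Δ' → ∃ h : H, ∀ w, w ∈ Δ.1 ↔ h⁻¹ • w ∈ Δ'.1 := by
  rw [broue_iff] at h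
  push Not at h
  obtain ⟨e, he, D, c, hD, ⟨φ⟩, hc, A, _, _, B, _, _, hA, hB, hRn⟩ := h
  obtain ⟨m, i1, i2, ⟨M⟩⟩ := hgood.exists_matBlock hS
  obtain ⟨w, hw⟩ := hS.exists_left_inv
  have hu : ∀ Δ : {Δ : Set Ω // (∀ h : H, (∀ w, h • w ∈ Δ ↔ w ∈ Δ) ↔ h ∈ i.range) ∧ Δ.Nonempty},
      ∃ u : Λ, u * (Nat.card (rk (S := S) hi Δ.2.1).ker : Λ) = 1 := fun Δ =>
    unit_of_dvd (rk_ker_dvd hi Δ.2.1) hw
  choose u hu using hu
  refine ⟨fun Δ => tr (lft (u Δ) (rk (S := S) hi Δ.2.1) M.ε e), fun Δ => ?_, fun Δ Δ' heq => ?_⟩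
  · obtain ⟨D', c', h1, h2, h3, ⟨f'⟩, h4, h5⟩ := transfer_tr M p hp hw (rk_surj hi Δ.2.1 Δ.2.2)
      (sep_rk hi Δ.2.1) (rk_ker_dvd hi Δ.2.1) (rs S Ω i) (rk_rs hi Δ.2.1) (hu Δ) he hD hc
    exact ⟨h1, D', c', h2, ⟨f'.trans φ⟩, h3, _, _, _, _, _, _, h4 A hA, h5 B hB,
      fun h6 => hRn (hR _ _ _ _ morita_mat morita_mat h6)⟩
  · by_contra hno
    push Not at hno
    have hb : IsBlock (lft (u Δ) (rk (S := S) hi Δ.2.1) M.ε e) :=
      lft_isBlock M (rk_surj hi Δ.2.1 Δ.2.2) (hu Δ) he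
    refine tr_ne hb.1 hb.2.2.1 hb.2.1 (lft_orth M (sep_rk hi Δ.2.1) e)
      (cross_rk hi Δ.2.1 Δ'.2.1 M e e (fun h => ?_)) heq
    obtain ⟨w, hw⟩ := hno h
    refine ⟨w, fun h2 => ?_⟩
    rcases hw with ⟨h3, h4⟩ | ⟨h3, h4⟩
    · exact h4 (h2.1 h3)
    · exact h3 (h2.2 h4)

end subset

end Pool.Agent.Helper13.VB
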